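import Pool.Agent.TH982.MA.Zeta

/-!
Moments of zeta and the exceptional sets of the maximal averages of its powers.
-/

open MeasureTheory Filter Topology

namespace Pool.Agent.Results.MP_112ba8_nt.MaximalAverages

/-- `M k T`: the mean of `|zeta(1/2+it)|^(2k)` over `[0,T]`. -/
noncomputable def M (k T : ℝ) : ℝ :=
  (∫ t in (0:ℝ)..T, ‖riemannZeta (1 / 2 + t * Complex.I)‖ ^ (2 * k)) / T

/-- `E k c T`: the set of the `t` in `[0,T]` that start a window `[t,t+h]`, contained in `[0,T]`,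
over which the mean of `|zeta(1/2+iu)|^(2k)` exceeds `c`. -/
def E (k c T : ℝ) : Set ℝ :=
  {t | 0 ≤ t ∧ ∃ h : ℝ, 0 < h ∧ t + h ≤ T ∧
    c < (∫ u in t..(t + h), ‖riemannZeta (1 / 2 + u * Complex.I)‖ ^ (2 * k)) / h}

/-- `V k c T`: the Lebesgue measure of `E k c T`. -/
noncomputable def V (k c T : ℝ) : ℝ := (volume (E k c T)).toReal

theorem result (k : ℝ) (hk : 1 < k) (δ : ℝ) (hδ0 : 0 < δ) (hδ : δ < k) :
    (∀ a : ℝ, Tendsto (fun T : ℝ => M k T / Real.log T ^ (k ^ 2)) atTop (𝓝 a) ↔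
      Tendsto (fun T : ℝ => Real.log T ^ δ * V k (Real.log T ^ (k ^ 2 + δ)) T / T)
        atTop (𝓝 a)) ∧
    ((∃ K : ℝ, ∀ᶠ T : ℝ in atTop, M k T ≤ K * Real.log T ^ (k ^ 2)) ↔
      ∃ K : ℝ, ∀ᶠ T : ℝ in atTop,
        V k (Real.log T ^ (k ^ 2 + δ)) T ≤ K * (T / Real.log T ^ δ)) :=
  ⟨fun _ => Pool.Agent.TH982.MA.asymp_iff Pool.Agent.TH982.MA.zz_data hk hδ0 hδ,
    Pool.Agent.TH982.MA.order_iff Pool.Agent.TH982.MA.zz_data hk hδ0 hδ⟩

end Pool.Agent.Results.MP_112ba8_nt.MaximalAverages
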