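import Mathlib
import Pool.Agent.TH336.OL.A4

/-!
# The moments of zeta and the values on ONE line

Let `p > 1` be real, `u ≠ 0`, and let `D p u S T` be the sum of `|ζ(1/2 + it)|^p` over the heights
`S < t ≤ T` (`t > 100`) at which `ζ(1/2 + it)` is a nonzero point of the line `ℝ u`. (For `u = 1`
these are the Gram points that are not zeros; the points of one line have the critical density
`log T / 2π`, so that this is a Plancherel-Pólya theorem at the Nyquist rate, which is why the
exponent `1` is excluded.) The constants below depend only on `p`, not on the line.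

* (one line) In every interval `[a, b]` at height about `T`, `log T` times the integral of `|ζ|^p`
  is at most a constant times `D p u (a - log T) (b + log T) + (b - a + 1) log T`, and `D p u a b`
  is at most a constant times `log T` times the integral over `[a - 2 log T, b + 2 log T]`, plus a
  small term.
* (corollary) For every `p > 1` and `A ≥ 0` the bound `O(T (log T)^A)` for the `p`-th moment is
  equivalent to the bound `O(T (log T)^(A+1))` for the discrete moment over one line.

The core (boundedness of the discrete Hilbert transform on `ℓ^p`, the residue theorem for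
`ζ / (1 - w)` and the dyadic comparison `Pool.Agent.W188.GP.a_fin`) is the project GP of helper188
and others of an earlier round, in the starting files, which no hand-in used; the local form is
new.
-/

set_option autoImplicit false

open Filter Topology Set MeasureTheory

namespace Pool.Agent.Results.MP_112ba8_nt.OneLineSampling

/-- The value `ζ(1/2 + it)`. -/
noncomputable def z (t : ℝ) : ℂ := riemannZeta (1 / 2 + t * Complex.I)

/-- The heights `t > 100` at which `ζ(1/2 + it)` is a nonzero point of the line `ℝ u`. -/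
def Pts (u : ℂ) : Set ℝ := {t | 100 < t ∧ ∃ r : ℝ, r ≠ 0 ∧ z t = r * u}

/-- The sum of `|ζ(1/2 + it)|^p` over the heights `S < t ≤ T` in `Pts u`. -/
noncomputable def D (p : ℝ) (u : ℂ) (S T : ℝ) : ℝ := ∑ᶠ t ∈ Pts u ∩ Ioc S T, ‖z t‖ ^ p

open Pool.Agent.W188.QS Pool.Agent.W188.GP Pool.Agent.W188.MZ

lemma D_eq {u : ℂ} (hu : u ≠ 0) : ∃ γ : ℝ, ∀ (p : ℝ) (a b : ℝ), 0 < p → 100 ≤ a → a ≤ b →
    D p u a b = DD p γ a b ∧ (Pts u ∩ Ioc a b).Finite :=
  Pool.Agent.TH336.OL.D_eq hu

lemma ZZ_z (t : ℝ) : ‖z t‖ = ZZ t := rfl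

theorem result :
    -- the sets of points are locally finite
    (∀ (u : ℂ) (a b : ℝ), u ≠ 0 → 100 ≤ a → a ≤ b → (Pts u ∩ Ioc a b).Finite) ∧
    -- one line, in all intervals
    (∀ p : ℝ, 1 < p → ∃ C T₀ : ℝ, 0 < C ∧ ∀ (u : ℂ) (T a b : ℝ), u ≠ 0 → T₀ ≤ T → T ≤ a → a ≤ b →
      b ≤ 8 * T →
      Real.log T * (∫ t in a..b, ‖z t‖ ^ p) ≤
        C * (D p u (a - Real.log T) (b + Real.log T) + (b - a + 1) * Real.log T) ∧
      D p u a b ≤
        C * (Real.log T * (∫ t in (a - 2 * Real.log T)..(b + 2 * Real.log T), ‖z t‖ ^ p) +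
          (b - a + 1) * T ^ (-(p / 3)))) ∧
    -- corollary: upper bounds for the moments are decided by one line
    (∀ (p A : ℝ) (u : ℂ), 1 < p → 0 ≤ A → u ≠ 0 →
      ((∃ C : ℝ, ∀ᶠ T : ℝ in atTop, ∫ t in (0 : ℝ)..T, ‖z t‖ ^ p ≤ C * (T * Real.log T ^ A)) ↔
        (∃ C : ℝ, ∀ᶠ T : ℝ in atTop, D p u 100 T ≤ C * (T * Real.log T ^ (A + 1))))) := by
  refine ⟨fun u a b hu ha hab => ?_, fun p hp => ?_, fun p A u hp hA hu => ?_⟩
  · obtain ⟨γ, hγ⟩ := D_eq hu
    exact (hγ 1 a b one_pos ha hab).2
  · obtain ⟨C1, T1, hC1, h1⟩ := Pool.Agent.TH336.OL.finL p hp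
    obtain ⟨C2, T2, hC2, h2⟩ := a_cmp p (by linarith)
    obtain ⟨T3, h3⟩ := eventually_atTop.1 (Pool.Agent.TH336.OL.ev_L 1 1)
    refine ⟨C1 + C2, max (max T1 T2) T3, by positivity, fun u T a b hu hT ha hab hb => ?_⟩
    have e1 : T1 ≤ T := ((le_max_left _ _).trans (le_max_left _ _)).trans hT
    have e2 : T2 ≤ T := ((le_max_right _ _).trans (le_max_left _ _)).trans hT
    obtain ⟨e3, e4, e5, -⟩ := h3 T ((le_max_right _ _).trans hT)
    have hT0 : 0 < T := by linarith
    obtain ⟨γ, hγ⟩ := D_eq hu
    have hD0 : ∀ a b : ℝ, 0 ≤ DD p γ a b := fun a b => Pool.Agent.W108.GPL.DD_nonneg _ _ _ _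
    constructor
    · rw [(hγ p (a - Real.log T) (b + Real.log T) (by linarith) (by linarith) (by linarith)).1]
      refine (h1 T γ a b e1 ha hab hb).trans ?_
      apply mul_le_mul_of_nonneg_right (by linarith)
      have := hD0 (a - Real.log T) (b + Real.log T)
      have h4 : 0 ≤ (b - a + 1) * Real.log T := mul_nonneg (by linarith) (by linarith)
      linarith
    · rw [(hγ p a b (by linarith) (by linarith) hab).1]
      refine (h2 T γ a b e2 (by linarith) hab (by linarith)).2.trans ?_
      apply mul_le_mul_of_nonneg_right (by linarith)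
      have h4 : 0 ≤ ∫ t in (a - 2 * Real.log T)..(b + 2 * Real.log T), ZZ t ^ p :=
        intervalIntegral.integral_nonneg (by linarith) fun t _ =>
          Pool.Agent.TH336.OL.ZZp_nonneg p t
      have h5 : 0 ≤ (b - a + 1) * T ^ (-(p / 3)) := mul_nonneg (by linarith) (by positivity)
      have h6 := mul_nonneg (by linarith : 0 ≤ Real.log T) h4
      linarith
  · obtain ⟨γ, hγ⟩ := D_eq hu
    refine (Pool.Agent.TH336.OL.equiv p A γ hp hA).trans ?_
    constructor
    · rintro ⟨C, hC⟩
      refine ⟨C, ?_⟩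
      filter_upwards [hC, eventually_ge_atTop 100] with T h1 h2
      rw [(hγ p 100 T (by linarith) le_rfl h2).1]
      exact h1
    · rintro ⟨C, hC⟩
      refine ⟨C, ?_⟩
      filter_upwards [hC, eventually_ge_atTop 100] with T h1 h2
      rw [(hγ p 100 T (by linarith) le_rfl h2).1] at h1
      exact h1

end Pool.Agent.Results.MP_112ba8_nt.OneLineSampling
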